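import Pool.Agent.W206.YP.Stm

/-!
# YP-P4: isogenous polynomials are equal
-/

set_option autoImplicit false

namespace Pool.Agent.W590.YP.P4

open Pool.Agent.W206.YP

/-- a nonconstant polynomial does not have all its values in a finite set -/
theorem not_fin (f : Polynomial ℂ) (hf : 0 < f.natDegree) (S : Set ℂ) (hS : S.Finite)
    (h : ∀ s : ℂ, f.eval s ∈ S) : False := by
  have hsurj : ∀ x : ℂ, x ∈ S := by
    intro x
    have hd : (f - Polynomial.C x).degree ≠ 0 := by
      have h1 : (f - Polynomial.C x).natDegree = f.natDegree := Polynomial.natDegree_sub_C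
      intro h0
      have h2 : (f - Polynomial.C x).natDegree = 0 := Polynomial.natDegree_eq_of_degree_eq_some h0
      omega
    obtain ⟨s, hs⟩ := IsAlgClosed.exists_root (f - Polynomial.C x) hd
    have h3 : f.eval s = x := by
      have h4 : (f - Polynomial.C x).eval s = 0 := hs
      rw [Polynomial.eval_sub, Polynomial.eval_C] at h4
      exact sub_eq_zero.mp h4
    rw [← h3]
    exact h s
  have hun : S = Set.univ := Set.eq_univ_of_forall hsurj
  rw [hun] at hS
  exact Set.infinite_univ hS

theorem main : S_PA → S_PB → S_EQV → S_TRN → S_P4 := by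
  intro hPA hPB hE hT N f g hN hdeg h
  have hsym := hE.2.2.1
  have h' : ∀ s : ℂ, IsoN N (g.eval s) (f.eval s) := fun s => hsym N _ _ hN (h s)
  have key : ∀ p q : Polynomial ℂ, 0 < p.natDegree →
      (∀ s : ℂ, IsoN N (p.eval s) (q.eval s)) → 0 < q.natDegree := by
    intro p q hp hpq
    by_contra hq
    have hq0 : q.natDegree = 0 := by omega
    obtain ⟨c, hc⟩ := Polynomial.natDegree_eq_zero.mp hq0
    refine not_fin p hp {x : ℂ | IsoN N x c} (hT.2 N c hN) ?_
    intro s
    have h1 := hpq s
    rw [← hc, Polynomial.eval_C] at h1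
    exact h1
  have hf : 0 < f.natDegree := by
    rcases hdeg with h1 | h1
    · exact h1
    · exact key g f h1 h'
  have hg : 0 < g.natDegree := by
    rcases hdeg with h1 | h1
    · exact key f g h1 h
    · exact h1
  exact hPB N f g hN hf hg (hPA N f g hN hf h')

end Pool.Agent.W590.YP.P4
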